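import Pool.Agent.Helper21.EQ.Q
import Pool.Agent.Helper21.EQ.N
import Pool.Graph.R_pool_sql_team_seeded_1acbe0a2.Y818.IC.PEELJ
import Pool.Graph.R_pool_sql_team_seeded_1acbe0a2.Y818.IC.AUT
import Pool.Graph.R_pool_sql_team_seeded_1acbe0a2.Y818.IC.STEP
import Pool.Graph.R_pool_sql_team_seeded_1acbe0a2.Y818.IC.SIZE
import Pool.Graph.R_pool_sql_team_seeded_1acbe0a2.Y818.IC.FIB
import Pool.Graph.R_pool_sql_team_seeded_1acbe0a2.Y818.IC.HALF

/-!
# Equidistribution of special points with complex multiplication by almost every field

`Y(1) = ℂ` by the modular function `j`, `sing D` is the set of the singular moduli of discriminant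
`D`, `mu` the hyperbolic probability measure, `orb F.fixingSubgroup x` the Galois orbit of `x` over
the number field `F`.

Khayutin's theorem (Joint equidistribution of CM points, Ann. of Math. 189 (2019)) is the case of
the problem where all coordinates of `x i` have the same fundamental discriminant `D i`, two *fixed*
primes split in all the fields `ℚ(√(D i))`, and the zeta functions of these fields have no
exceptional zeros.  Every pair of primes excludes three quarters of the fields.  The theorem below
deduces from it and from the theorem of Clozel and Ullmo that the two primes may depend on `D i`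
and the zero free interval may become shorter:

(1) There is a function `ω`, tending to infinity, such that generic sequences are equidistributed
if two odd primes `p, q ≤ ω |D i|`, arbitrary otherwise, split in `ℚ(√(D i))`, and the
`L`-function has no zero in the interval `[1 - 1 / (ω |D i| log |D i|), 1)`.  The same `ω` serves
all `n` and all number fields.

(2) The same holds if further coordinates are added which are isolated from the preceding ones in
the sense of the library (`Isolated`), for example coordinates whose CM fields are pairwise
different and different from `ℚ(√(D i))` (of any discriminants).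

(3) By Landau's theorem almost all fundamental discriminants satisfy the condition of (1): only
`o(X)` of the fundamental discriminants `-X ≤ D < 0` do not.

Proof of (1).  For fixed `k`, Khayutin's theorem for the special subvarieties `Z` of smallest
possible dimension gives, by compactness (there are only finitely many pairs of primes `≤ k`),
uniformity: if `|D|` is large and `Good k D`, then the orbit of every `x ∈ (sing D)ⁿ` is
close to the canonical measure of some special subvariety `Z ∋ x` without constant coordinates.
A diagonal argument over the countably many pairs `(F, n)` gives `ω`; the subvarieties `Z` which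
belong to the members of a generic sequence are a generic sequence of special subvarieties, and
the theorem of Clozel and Ullmo applies.

The published theorems `Known`, `Landau`, `CMTheory`, `GenusTheory`, `ClassNumberBound`,
`RingClassFields`, `SmallIndexDuke` are hypotheses.
-/

set_option autoImplicit false

open MeasureTheory Filter UpperHalfPlane Pool.Agent.Y818.IC

namespace Pool.Agent.Results.MP_ad7a55_nt.AlmostAllFields

open Pool.Agent.Helper21.EQ

theorem result (m : ∀ (_ : IntermediateField ℚ ℂ) (n : ℕ), Sub n → Measure (Fin n → ℂ)) :
    ∃ ω : ℕ → ℕ, Tendsto ω atTop atTop ∧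
      -- (1) One good fundamental discriminant for all coordinates.
      (∀ F : IntermediateField ℚ ℂ, FiniteDimensional ℚ F → ∀ n : ℕ, 0 < n → Known F n (m F n) →
        ∀ (x : ℕ → Fin n → ℂ) (D : ℕ → ℤ), (∀ i, Good (ω (D i).natAbs) (D i)) →
          (∀ i k, x i k ∈ sing (D i)) → Generic x → Equidistributed F x) ∧
      -- (2) One good fundamental discriminant for the first `r` coordinates, `s` isolated ones.
      (CMTheory → GenusTheory → ClassNumberBound → RingClassFields →
        ∀ η : ℝ, 0 < η → SmallIndexDuke η →
        ∀ F : IntermediateField ℚ ℂ, FiniteDimensional ℚ F → ∀ r s : ℕ, 0 < r →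
        Known F r (m F r) →
        ∀ (x : ℕ → Fin (r + s) → ℂ) (D : ℕ → Fin (r + s) → ℤ) (d : ℕ → ℤ),
          (∀ i k, D i k < 0 ∧ x i k ∈ sing (D i k)) →
          (∀ i (k : Fin r), D i (Fin.castAdd s k) = d i) →
          (∀ i, Good (ω (d i).natAbs) (d i)) →
          (∀ i (l : Fin s),
            Isolated (η / 4) (D i) (Fin.natAdd r l) (Finset.Iio (Fin.natAdd r l))) →
          Generic x → Equidistributed F x) ∧
      -- (3) Almost all fundamental discriminants are good.
      (Landau → Tendsto (fun X : ℕ => ((Bad ω X).ncard : ℝ) / X) atTop (nhds 0)) := by
  obtain ⟨ω, -, hω, h1⟩ := main m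
  refine ⟨ω, hω, h1, ?_, fun hL => density hL ω hω⟩
  intro cm genus cls ring η hη duke F hF r s hr hK x D d hx hd hgood hiso hg
  have hpeel : S_PEEL (η / 4) :=
    peelj cm genus cls ring aut (size step) fib half η hη duke
  refine mix cm hpeel hF x D hx hg hiso fun hg' => ?_
  refine h1 F hF r hr hK _ d hgood (fun i k => ?_) hg'
  rw [← hd i k]
  exact (hx i _).2

end Pool.Agent.Results.MP_ad7a55_nt.AlmostAllFields
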