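import Pool.Agent.Helper5.EQ.Count

/-!
# Galois orbits of special points with multiplicative relations between the coordinates

Let `S j = Γ j \ ℍ`, `j ∈ ι`, be finitely many modular curves and `p` a prime number which does not divide
their levels. `Y j → S j` is the cover of level `T(ℤ_p)` at `p`, where `T` is the diagonal torus of
`PGL₂(ℚ_p)`, with the invariant probability measure `μ j`, and `a j` is the right translation by
`diag(p, 1)`; it is mixing (Howe and Moore).

For `i = 0, 1, 2, ...` let `K` be an imaginary quadratic field in which `p` splits, `𝔭` a prime over `p`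
and `G i` a ring class group (or ray class group) of `K` of conductor prime to `p`, and `c i` the class of
`𝔭`. The CM points of `S j` for this group, with the action of the group, form packets: after the choice
of a base point we have a map `g ↦ proj j (X i j g)` from `G i` to `S j`; it lifts to a map `X i j` from
`G i` to `Y j`, such that `X i j (c i * g)` is the translate of `X i j g` by `diag(p, 1)`. The different
coordinates may have different conductors: `G i` is then a common extension of the class groups. The
packets are equidistributed in the `Y j` if the discriminants tend to infinity (Duke's theorem with level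
at `p`). The Galois group of a number field which contains `K` acts through a subgroup `B` of `G i`, of
bounded index if the number field is the compositum of `K` and a fixed field (the orbits of a field which
does not contain `K` are unions of two such orbits).

For `α ∈ (G i)^r` and `e ∈ ℤ^r` let `α^e` be the product of the `(α s)^(e s)`. Let `e j ∈ ℤ^r`, `j ∈ ι`, be
pairwise different. We consider the special points `(z * y j * α^(e j))` of the product of the `S j`,
for instance `(z, z α, z α², z α³, ...)` or `(z, z α, z β, z α β)`. We prove:

1. For all `y`, for almost all `α`, for all `z`, the orbits of all these points for the subgroups `B`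
of index at most `M` are equidistributed in the product of the `S j`.

2. If the `e j` are primitive, then for all `y`, for almost all `α`, the orbits of the points
`(y j * α^(e j))` for all subgroups `B` of any index, which contain a bounded power of `c i` (so for the
Galois groups of all number fields of any degree with a place over `p` of bounded degree), are
equidistributed in the product of the `S j`.

The number `r` of the parameters is arbitrary, so the families are of small dimension in the set of all
points of the product of the packets. The equidistribution of almost all of the points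
`(z α_1, ..., z α_n)` is known. For the proof we show that the coordinates are asymptotically independent
if for all pairs of coordinates there is an element which is trivial on one of them and mixing on
the other one; for vectors `e j` in general position such elements are found among the powers of `c i`,
starting from the vertices of the convex hull of the `e j`.
-/

set_option autoImplicit false

open MeasureTheory Filter Topology
open scoped ComplexConjugate BoundedContinuousFunction

namespace Pool.Agent.Results.MP_ad7a55_nt.MultiplicativeRelations

/-- The map `b` preserves the measure `μ` and is weakly mixing (tested on bounded continuous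
functions). -/
structure WeaklyMixing {Y : Type} [TopologicalSpace Y] [MeasurableSpace Y] (μ : Measure Y)
    (b : Y → Y) : Prop where
  preserves : MeasurePreserving b μ μ
  mixing : ∀ f : Y →ᵇ ℂ, Tendsto (fun k : ℕ => (∑ l ∈ Finset.range k,
    ‖∫ y, f (b^[l] y) * conj (f y) ∂μ - (∫ y, f y ∂μ) * conj (∫ y, f y ∂μ)‖) / k) atTop (𝓝 0)

/-- The families `X i g`, `g ∈ G i`, of points of `Z` are equidistributed as `i` tends to infinity. -/
def Equidistributed {Z : Type} [TopologicalSpace Z] [MeasurableSpace Z] (μ : Measure Z)
    {G : ℕ → Type} [∀ i, Fintype (G i)] (X : ∀ i, G i → Z) : Prop :=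
  ∀ f : Z → ℝ, Continuous f → HasCompactSupport f →
    Tendsto (fun i => (∑ g, f (X i g)) / Fintype.card (G i)) atTop (𝓝 (∫ z, f z ∂μ))

/-- The monomial `∏ (α s) ^ (e s)`. -/
def monomial {G : Type} [CommGroup G] {r : ℕ} (α : Fin r → G) (e : Fin r → ℤ) : G :=
  ∏ s, α s ^ e s

/-- The average of `Φ` over the orbit of the subgroup `B`: over the points with the coordinates
`x j (b * g j)`, `b ∈ B`. -/
noncomputable def orbitMean {ι : Type} {S : ι → Type} {G : Type} [CommGroup G]
    (Φ : (∀ j, S j) → ℝ) (x : ∀ j, G → S j) (B : Subgroup G) (g : ι → G) : ℝ :=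
  (∑ᶠ b : B, Φ fun j => x j (b * g j)) / Nat.card B

/-- **Special points with multiplicative relations.** Let `X i j : G i → Y j` be packets such that
the multiplication by `c i` corresponds to the weakly mixing map `a j` of `Y j`, and which are
equidistributed in each `Y j`. Let `proj j : Y j → S j` be continuous, `Φ` a continuous function with
compact support on the product of the `S j` and `e j`, `j ∈ ι`, pairwise different vectors of integers.

1. For all `M` and `ε`, if `i` is large, for all subgroups `B` of `G i` of index at most `M` and all
`y`, except for at most `ε |G i|^r` of the `α ∈ (G i)^r`, the averages of `Φ` over the `B`-orbits of the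
points `(z * y j * α^(e j))`, for all `z`, differ from the integral of `Φ` by at most `ε`.

2. Suppose that the vectors `e j` are primitive. For all `R` and `ε`, if `i` is large, for all
subgroups `B` of `G i` which contain one of the powers `(c i)^k`, `1 ≤ k ≤ R`, and all `y`, except for at
most `ε |G i|^r` of the `α ∈ (G i)^r`, the average of `Φ` over the `B`-orbit of the point
`(y j * α^(e j))` differs from the integral of `Φ` by at most `ε`. -/
theorem result {ι : Type} [Fintype ι] {Y : ι → Type} [∀ j, TopologicalSpace (Y j)]
    [∀ j, T2Space (Y j)] [∀ j, LocallyCompactSpace (Y j)] [∀ j, SecondCountableTopology (Y j)]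
    [∀ j, MeasurableSpace (Y j)] [∀ j, BorelSpace (Y j)] (μ : ∀ j, Measure (Y j))
    [∀ j, IsProbabilityMeasure (μ j)] (a : ∀ j, Y j → Y j) (ha : ∀ j, Continuous (a j))
    (hmix : ∀ j, WeaklyMixing (μ j) (a j)) {G : ℕ → Type} [∀ i, CommGroup (G i)]
    [∀ i, Fintype (G i)] (c : ∀ i, G i) (X : ∀ i j, G i → Y j)
    (hX : ∀ i j g, X i j (c i * g) = a j (X i j g))
    (hE : ∀ j, Equidistributed (μ j) fun i => X i j)
    {S : ι → Type} [∀ j, TopologicalSpace (S j)] [∀ j, T2Space (S j)]
    [∀ j, LocallyCompactSpace (S j)] [∀ j, SecondCountableTopology (S j)]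
    [∀ j, MeasurableSpace (S j)] [∀ j, BorelSpace (S j)] (proj : ∀ j, Y j → S j)
    (hproj : ∀ j, Continuous (proj j)) (Φ : (∀ j, S j) → ℝ) (hc : Continuous Φ)
    (hs : HasCompactSupport Φ) {r : ℕ} (e : ι → Fin r → ℤ) (he : Function.Injective e) :
    (∀ (M : ℕ) (ε : ℝ), 0 < ε → ∀ᶠ i in atTop, ∀ (B : Subgroup (G i)) (y : ι → G i),
      B.index ≤ M →
      ({α : Fin r → G i | ∃ z : G i, ε < |orbitMean Φ (fun j g => proj j (X i j g)) B
          (fun j => z * y j * monomial α (e j)) -
          ∫ s, Φ s ∂(Measure.pi fun j => (μ j).map (proj j))|}.ncard : ℝ) ≤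
        ε * (Fintype.card (G i) : ℝ) ^ r) ∧
    ((∀ j, ∃ u : Fin r → ℤ, ∑ s, u s * e j s = 1) →
      ∀ (R : ℕ) (ε : ℝ), 0 < ε → ∀ᶠ i in atTop, ∀ (B : Subgroup (G i)) (y : ι → G i),
      (∃ k, 1 ≤ k ∧ k ≤ R ∧ c i ^ k ∈ B) →
      ({α : Fin r → G i | ε < |orbitMean Φ (fun j g => proj j (X i j g)) B
          (fun j => y j * monomial α (e j)) -
          ∫ s, Φ s ∂(Measure.pi fun j => (μ j).map (proj j))|}.ncard : ℝ) ≤
        ε * (Fintype.card (G i) : ℝ) ^ r) := by
  classical
  have hbase : Helper5.EQ.Base μ X := by
    intro j f
    let P : ∀ i, @Measure (G i) ⊤ := fun i => Helper5.EQ.unif (G i)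
    have hP : ∀ i, @IsProbabilityMeasure (G i) ⊤ (P i) := fun i => Helper5.EQ.unif_prob (G i)
    have h1 := @Helper5.EQ.weak_of_vague ℕ atTop (Y j) _ _ _ _ _ _ (μ j) _ G (fun _ => ⊤) P hP
      (fun i => X i j) (fun i => measurable_from_top) (fun φ hφ hφs => by
        have h2 := hE j φ hφ hφs
        refine (tendsto_congr fun i => ?_).2 h2
        exact Helper5.EQ.integral_unif_real (A := G i) (fun g => φ (X i j g))) f
    refine (tendsto_congr fun i => ?_).1 h1
    exact Helper5.EQ.integral_unif (A := G i) (fun g => f (X i j g))
  refine ⟨fun M ε hε => ?_, fun hprim R ε hε => ?_⟩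
  · -- bounded index
    have h1 := Helper5.EQ.second_moment ha (fun j => (hmix j).preserves) (fun j => (hmix j).mixing)
      hX he (fun _ B => B.index ≤ M) (κ := M.factorial) (Nat.factorial_pos M) (fun i B hB => by
        have hidx : B.index ≠ 0 := Subgroup.index_ne_zero_of_finite
        obtain ⟨k, hk⟩ := Nat.dvd_factorial (Nat.pos_of_ne_zero hidx) hB
        rw [hk, pow_mul]
        exact B.pow_mem (B.pow_index_mem (c i)) k)
      (Helper5.EQ.joint_bounded ha (fun j => (hmix j).preserves) (fun j => (hmix j).mixing)
        hX hbase M e) proj hproj Φ hc hs (ε := ε ^ 3 / (M + 1)) (by positivity)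
    filter_upwards [h1] with i hi B y hB
    have hcard : (Fintype.card (Fin r → G i) : ℝ) = (Fintype.card (G i) : ℝ) ^ r := by
      rw [Fintype.card_fun, Fintype.card_fin]
      push_cast
      rfl
    have h2 := Helper5.EQ.count_translates Φ (fun j g => proj j (X i j g)) B
      (∫ s, Φ s ∂(Measure.pi fun j => (μ j).map (proj j))) e y (ε := ε)
      (δ := ε ^ 3 / (M + 1) / ε ^ 2 * Fintype.card (Fin r → G i)) hB (by positivity) (fun z => by
        exact Helper5.EQ.chebyshev _ hε (hi B (fun j => z * y j) hB))
    refine h2.trans ?_
    rw [hcard]
    have h3 : (M : ℝ) * (ε ^ 3 / (M + 1) / ε ^ 2 * (Fintype.card (G i) : ℝ) ^ r) =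
        (M / (M + 1)) * (ε * (Fintype.card (G i) : ℝ) ^ r) := by
      field_simp
    rw [h3]
    refine mul_le_of_le_one_left (by positivity) ?_
    rw [div_le_one (by positivity)]
    linarith
  · -- primitive exponents
    have h1 := Helper5.EQ.second_moment ha (fun j => (hmix j).preserves) (fun j => (hmix j).mixing)
      hX he (fun i B => ∃ k, 1 ≤ k ∧ k ≤ R ∧ c i ^ k ∈ B) (κ := R.factorial)
      (Nat.factorial_pos R) (fun i B hB => by
        obtain ⟨k, hk1, hkR, hk⟩ := hB
        obtain ⟨l, hl⟩ := Nat.dvd_factorial hk1 hkR
        rw [hl, pow_mul]
        exact B.pow_mem hk l)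
      (Helper5.EQ.joint_primitive hbase hprim _) proj hproj Φ hc hs (ε := ε ^ 3) (by positivity)
    filter_upwards [h1] with i hi B y hB
    have hcard : (Fintype.card (Fin r → G i) : ℝ) = (Fintype.card (G i) : ℝ) ^ r := by
      rw [Fintype.card_fun, Fintype.card_fin]
      push_cast
      rfl
    have h2 := Helper5.EQ.chebyshev _ hε (hi B y hB)
    rw [hcard] at h2
    refine le_trans ?_ (h2.trans (le_of_eq ?_))
    · exact le_of_eq rfl
    · field_simp

end Pool.Agent.Results.MP_ad7a55_nt.MultiplicativeRelations
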