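import Pool.Agent.Helper21.EQ.Asm
import Pool.Agent.Helper21.EQ.Den
import Pool.Graph.R_pool_sql_team_seeded_1acbe0a2.Y818.IC.PEELJ
import Pool.Graph.R_pool_sql_team_seeded_1acbe0a2.Y818.IC.STEP
import Pool.Graph.R_pool_sql_team_seeded_1acbe0a2.Y818.IC.SIZE
import Pool.Graph.R_pool_sql_team_seeded_1acbe0a2.Y818.IC.FIB
import Pool.Graph.R_pool_sql_team_seeded_1acbe0a2.Y818.IC.HALF

/-!
# Equidistribution of special points with complex multiplication by several maximal orders

`Y(1) = ℂ` by the modular function `j`, `sing D` is the set of the singular moduli of discriminant
`D`, `mu` the hyperbolic probability measure, `orb F.fixingSubgroup x` the Galois orbit of `x` over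
the number field `F`.

Khayutin's theorem (Joint equidistribution of CM points, Ann. of Math. 189 (2019)) treats generic
sequences of special points all of whose coordinates have the same fundamental discriminant; the
library result `IsolatedCoordinates` treats pairwise different CM fields. Here:

(1) Let `Good k D` mean that `D` is a negative fundamental discriminant, that two odd primes
`≤ k` split in `ℚ(√D)` and that the `L`-function of this field has no zero in
`[1 - 1 / (k log |D|), 1)`.  If all the coordinates of the special points `x i ∈ Y(1)ⁿ` have
discriminants `D i l` with `Good k (D i l)`, equal or different in any pattern (which may depend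
on `i`), and if the sequence is generic, then the Galois orbits are equidistributed in `Y(1)ⁿ`.

(2) The same holds if further coordinates are added which are isolated from the preceding ones in
the sense of the library (`Isolated`), for example coordinates whose CM fields are pairwise
different and different from the others (of any discriminants).

(3) By Landau's theorem, for every `ε > 0` and all large `k` at most `ε X` of the fundamental
discriminants `-X ≤ D < 0` do not satisfy `Good k D`, if `X` is large.

Proof of (1).  Consider the coordinates which have the same field `K` as the first one, and a prime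
ideal `P` of `K` of norm `p`.  The sign trick gives an automorphism `ρ` of `ℂ` over `F` which acts
on these coordinates as the class of `P ^ k'`, where `k'` is bounded, and which fixes the other
coordinates.  By the inequality of Cauchy and Schwarz it suffices to bound the correlations of a
function on the block with its images under the powers `ρ ^ t`.  The pair of the block `z` and of
`ρ ^ t z` lies in the Hecke correspondence of degree `p ^ (k' t)`; by Khayutin's theorem
for this special subvariety of `Y(1)^(2r)` the correlation has a limit, and by the theorem of Clozel,
Oh and Ullmo on Hecke correspondences this limit tends to zero as `t` tends to infinity.  So the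
block is asymptotically independent of the other coordinates.

The published theorems `KnownM`, `Landau`, `CMTheory`, `Artin`, `GenusTheory`,
`ClassNumberBound`, `RingClassFields`, `SmallIndexDuke` are hypotheses.

Modules by helper15 (Cesàro means), helper33 (coordinates of generic sequences), helper48 (sign
trick), helper67 (correlations), helper80 (Hecke correspondences), helper92 (special subvarieties of
small dimension).
-/

set_option autoImplicit false

open MeasureTheory Filter UpperHalfPlane Pool.Agent.Y818.IC

namespace Pool.Agent.Results.MP_ad7a55_nt.SeveralFields

open Pool.Agent.Helper21.EQ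

theorem result :
    (∀ F : IntermediateField ℚ ℂ, FiniteDimensional ℚ F →
      ∀ m : ∀ n : ℕ, Sub n → Measure (Fin n → ℂ), KnownM F m → CMTheory → Artin → ∀ k : ℕ,
      -- (1) Good fundamental discriminants, equal or different in any pattern.
      (∀ (n : ℕ) (x : ℕ → Fin n → ℂ) (D : ℕ → Fin n → ℤ), (∀ i l, x i l ∈ sing (D i l)) →
        (∀ i l, Good k (D i l)) → GenericD x → Equidistributed F x) ∧
      -- (2) With further isolated coordinates.
      (GenusTheory → ClassNumberBound → RingClassFields → ∀ η : ℝ, 0 < η → SmallIndexDuke η →
        ∀ (r s : ℕ) (x : ℕ → Fin (r + s) → ℂ) (D : ℕ → Fin (r + s) → ℤ),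
          (∀ i l, D i l < 0 ∧ x i l ∈ sing (D i l)) →
          (∀ i (l : Fin r), Good k (D i (Fin.castAdd s l))) →
          (∀ i (l : Fin s),
            Isolated (η / 4) (D i) (Fin.natAdd r l) (Finset.Iio (Fin.natAdd r l))) →
          GenericD x → Equidistributed F x)) ∧
    -- (3) Almost all fundamental discriminants are good for large `k`.
    (Landau → ∀ ε : ℝ, 0 < ε → ∃ k0 : ℕ, ∀ k : ℕ, k0 ≤ k → ∀ᶠ X : ℕ in atTop,
      (({D : ℤ | IsFund D ∧ D.natAbs ≤ X ∧ ¬ Good k D} : Set ℤ).ncard : ℝ) ≤ ε * X) := by
  refine ⟨fun F hF m hK cm artin k => ⟨?_, ?_⟩, fun hL ε hε => density_k hL ε hε⟩
  · intro n x D hx hgood hgen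
    exact several cm artin hF hK k n x D hx hgood hgen
  · intro genus cls ring η hη duke r s x D hx hgood hiso hgen
    have hpeel : S_PEEL (η / 4) :=
      peelj cm genus cls ring aut (size step) fib half η hη duke
    exact several_isolated cm artin hpeel hF hK k x D hx hgood hiso hgen

end Pool.Agent.Results.MP_ad7a55_nt.SeveralFields
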